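import Pool.Agent.Lib.MP_305fdd_al.F8.Bundles

/-!
# MP_305fdd_al: the arithmetic once-punctured torus bundles and the groups which contain them

For an automorphism `β` of the free group of rank two, `BundleGroup β` is the group of the
once-punctured torus bundle with monodromy `β`. By a theorem of Bowditch, Maclachlan and Reid the
(orientable) arithmetic once-punctured torus bundles are those where the action of the monodromy on `ℤ ^ 2` is
conjugate to `± C ^ n`, `n ≥ 1`, where `C` is one of the three matrices `R L = [[2, 1], [1, 1]]`,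
`R² L = [[3, 2], [1, 1]]`, `R² L² = [[5, 2], [2, 1]]`, `R = [[1, 1], [0, 1]]`, `L = [[1, 0], [1, 1]]`.

`result`: let some power of the action of `β` on `ℤ ^ 2` be conjugate in `GL(2, ℤ)` to `C ^ n`, `n ≥ 1`, for
one of the three matrices `C`. Then every group which has a normal subgroup of finite index
isomorphic to `BundleGroup β` and no nontrivial finite normal subgroup is profinitely rigid in the
absolute sense.

The theorems after `result` list special cases: the bundle groups, the figure-eight knot group,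
and for each `C` explicit groups of matrices `Klein3 n`, `Klein7 s n`, `Klein1 e f n` (the groups of the cyclic
covers of three bundles) and all subgroups of `PSL(2,ℂ)` which contain one of them as a normal
subgroup of finite index.
-/

set_option autoImplicit false

namespace Pool.Agent.Results.MP_305fdd_al.ArithmeticTorusBundles

open Pool.Agent.MP_305fdd_al

/-! ### The theorem -/

/-- the exponent sum of the generator `i` -/
def expSum (i : Fin 2) : FreeGroup (Fin 2) →* Multiplicative ℤ :=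
  FreeGroup.lift fun k => Multiplicative.ofAdd (if k = i then 1 else 0)

/-- the matrix through which an automorphism of the free group of rank two acts on `ℤ ^ 2` -/
def abMat (β : MulAut (FreeGroup (Fin 2))) : Matrix (Fin 2) (Fin 2) ℤ :=
  Matrix.of fun i j => Multiplicative.toAdd (expSum i (β (FreeGroup.of j)))

theorem abMat_eq (β : MulAut (FreeGroup (Fin 2))) : abMat β = (F2X.AM β).val := by
  have h : ∀ (w : FreeGroup (Fin 2)) (i : Fin 2),
      Multiplicative.toAdd (expSum i w) = F2X.vec w i := by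
    intro w i
    let g : FreeGroup (Fin 2) →* Multiplicative ℤ :=
      (AddMonoidHom.toMultiplicative (Pi.evalAddMonoidHom (fun _ : Fin 2 => ℤ) i)).comp F2X.abh
    have h1 : expSum i = g := by
      ext k
      show Multiplicative.toAdd (expSum i (FreeGroup.of k)) = F2X.vec (FreeGroup.of k) i
      rw [F2X.vec_of, Pi.single_apply]
      unfold expSum
      rw [FreeGroup.lift_apply_of]
      show (if k = i then (1 : ℤ) else 0) = _
      simp only [eq_comm]
    exact congrArg Multiplicative.toAdd (DFunLike.congr_fun h1 w)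
  ext i j
  exact h _ _

/-- The group of the once-punctured torus bundle with monodromy `β`. -/
abbrev BundleGroup (β : MulAut (FreeGroup (Fin 2))) : Type :=
  FreeGroup (Fin 2) ⋊[zpowersHom (MulAut (FreeGroup (Fin 2))) β] Multiplicative ℤ

/-- Let `C` be one of the matrices `[[2, 1], [1, 1]]`, `[[3, 2], [1, 1]]`, `[[5, 2], [2, 1]]`, and let `β` be an
automorphism of the free group of rank two such that a power `B ^ k`, `k ≥ 1`, of its action `B` on
`ℤ ^ 2` is conjugate in `GL(2, ℤ)` to a power `C ^ n`, `n ≥ 1`. Every group without nontrivial finite normal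
subgroups which has a normal subgroup of finite index isomorphic to `BundleGroup β` is profinitely
rigid in the absolute sense. -/
theorem result (C : Matrix (Fin 2) (Fin 2) ℤ)
    (hC : C = !![2, 1; 1, 1] ∨ C = !![3, 2; 1, 1] ∨ C = !![5, 2; 2, 1])
    (β : MulAut (FreeGroup (Fin 2))) (k n : ℕ) (hk : 0 < k) (hn : 0 < n)
    (X : GL (Fin 2) ℤ) (hX : X.val * abMat β ^ k = C ^ n * X.val)
    (Γ : Type) [Group Γ] (N : Subgroup Γ) (hN : N.Normal) (hi : N.FiniteIndex)
    (e : N ≃* BundleGroup β) (hΓ : ∀ K : Subgroup Γ, K.Normal → Finite K → K = ⊥) :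
    ProfinitelyRigid Γ :=
  F8.AB.bundles C hC β k n hk hn X (by rw [← abMat_eq]; exact hX) Γ N hN hi e hΓ

/-! ### Special cases -/

/-- The bundle groups with monodromy conjugate to `± C ^ n`: by the theorem of Bowditch, Maclachlan and
Reid these are the groups of all arithmetic once-punctured torus bundles. -/
theorem bundle (C : Matrix (Fin 2) (Fin 2) ℤ)
    (hC : C = !![2, 1; 1, 1] ∨ C = !![3, 2; 1, 1] ∨ C = !![5, 2; 2, 1])
    (β : MulAut (FreeGroup (Fin 2))) (n : ℕ) (hn : 0 < n) (X : GL (Fin 2) ℤ)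
    (hX : X.val * abMat β = C ^ n * X.val ∨ X.val * abMat β = -(C ^ n * X.val)) :
    ProfinitelyRigid (BundleGroup β) := by
  have h : X.val * abMat β ^ 2 = C ^ (2 * n) * X.val := by
    rw [two_mul, pow_add, pow_two, ← mul_assoc]
    rcases hX with h | h
    · rw [h, mul_assoc, h, mul_assoc]
    · rw [h, neg_mul, mul_assoc, h, mul_neg, neg_neg, mul_assoc]
  refine result C hC β 2 (2 * n) two_pos (by omega) X h _ ⊤ inferInstance inferInstance
    Subgroup.topEquiv fun K _ hf => F8.OV.GA_nf β K hf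

/-- `PSL(2,ℂ)` -/
abbrev PSL2C : Type := Matrix.ProjectiveSpecialLinearGroup (Fin 2) ℂ

/-- the class of the matrix `[[a, b], [c, d]]` -/
noncomputable def cls (a b c d : ℂ) (h : a * d - b * c = 1) : PSL2C :=
  QuotientGroup.mk' _ ⟨!![a, b; c, d], by rw [Matrix.det_fin_two_of]; exact h⟩

/-- `ω = (-1 + i √3) / 2` -/
noncomputable def omega : ℂ := ⟨-1 / 2, Real.sqrt 3 / 2⟩

/-- The group of the `n`-fold cyclic cover of the complement of the figure-eight knot (with
monodromy `C ^ n`, `C = [[2, 1], [1, 1]]`): it is generated by `b a⁻¹`, `a⁻¹ b`, `a ^ n`, where `a` and `b` are the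
classes of `[[1, 1], [0, 1]]` and `[[1, 0], [-ω, 1]]`. -/
noncomputable def Klein3 (n : ℕ) : Subgroup PSL2C :=
  Subgroup.closure {cls 1 0 (-omega) 1 (by ring) * (cls 1 1 0 1 (by ring))⁻¹,
    (cls 1 1 0 1 (by ring))⁻¹ * cls 1 0 (-omega) 1 (by ring), cls 1 1 0 1 (by ring) ^ n}

/-- The group of a once-punctured torus bundle with monodromy `C ^ n`, `C = [[3, 2], [1, 1]]`, for each
complex root `s` of `s ^ 4 + s ^ 2 + 2` (`s ^ 2` is a root of `x ^ 2 + x + 2`, so `ℚ(s ^ 2) = ℚ(√-7)`). -/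
noncomputable def Klein7 (s : ℂ) (hs : s ^ 4 + s ^ 2 + 2 = 0) (n : ℕ) : Subgroup PSL2C :=
  Subgroup.closure {cls 0 (-1) 1 (-s ^ 3) (by ring),
    cls (-s) (-3 - 2 * s ^ 2) 1 (s - s ^ 3) (by linear_combination hs), cls 1 s 0 1 (by ring) ^ n}

/-- The group of a once-punctured torus bundle with monodromy `C ^ n`, `C = [[5, 2], [2, 1]]`, for all
complex numbers `e`, `f` with `e ^ 4 = -1`, `f ^ 2 = 1 + e ^ 2` (`e ^ 2` is a root of `-1`). -/
noncomputable def Klein1 (e f : ℂ) (he : e ^ 4 + 1 = 0) (hf : f ^ 2 = 1 + e ^ 2) (n : ℕ) :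
    Subgroup PSL2C :=
  Subgroup.closure {
    cls (-(e ^ 3 * f)) (-e ^ 3) (e ^ 3) (e * f)
      (by linear_combination (e ^ 2 - f ^ 2) * he + hf),
    cls (-e) (e ^ 3 * f) (-(e ^ 3 * f)) (-e)
      (by linear_combination (e ^ 2 * f ^ 2 - 1) * he - e ^ 2 * hf),
    cls 1 ((e ^ 2 - 1) * f) 0 1 (by ring) ^ n}

/-- All subgroups of `PSL(2,ℂ)` which contain some `Klein3 n` as a normal subgroup of finite index. -/
theorem kleinian3 (n : ℕ) (hn : 0 < n) (Γ : Subgroup PSL2C) (hle : Klein3 n ≤ Γ)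
    (hN : ((Klein3 n).subgroupOf Γ).Normal) (hi : ((Klein3 n).subgroupOf Γ).FiniteIndex) :
    ProfinitelyRigid Γ :=
  F8.rigid_klein n hn Γ hle hN hi

/-- All subgroups of `PSL(2,ℂ)` which contain some `Klein7 n` as a normal subgroup of finite index. -/
theorem kleinian7 (s : ℂ) (hs : s ^ 4 + s ^ 2 + 2 = 0) (n : ℕ) (hn : 0 < n) (Γ : Subgroup PSL2C)
    (hle : Klein7 s hs n ≤ Γ) (hN : ((Klein7 s hs n).subgroupOf Γ).Normal)
    (hi : ((Klein7 s hs n).subgroupOf Γ).FiniteIndex) : ProfinitelyRigid Γ :=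
  F8.D7.klein7 s hs n hn Γ hle hN hi

/-- All subgroups of `PSL(2,ℂ)` which contain some `Klein1 n` as a normal subgroup of finite index. -/
theorem kleinian1 (e f : ℂ) (he : e ^ 4 + 1 = 0) (hf : f ^ 2 = 1 + e ^ 2) (n : ℕ) (hn : 0 < n)
    (Γ : Subgroup PSL2C) (hle : Klein1 e f he hf n ≤ Γ)
    (hN : ((Klein1 e f he hf n).subgroupOf Γ).Normal)
    (hi : ((Klein1 e f he hf n).subgroupOf Γ).FiniteIndex) : ProfinitelyRigid Γ :=
  F8.D1.klein1 e f he hf F8.D1.p_X1 n hn Γ hle hN hi

/-- `Klein3 n` is a bundle group with monodromy conjugate to `[[2, 1], [1, 1]] ^ n`. -/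
theorem klein3_bundle (n : ℕ) (hn : 0 < n) : ∃ β : MulAut (FreeGroup (Fin 2)),
    (∃ X : GL (Fin 2) ℤ, X.val * abMat β = !![2, 1; 1, 1] ^ n * X.val) ∧
      Nonempty (BundleGroup β ≃* Klein3 n) := by
  refine ⟨F8.phi ^ n, ?_, ⟨F8.kcE n hn⟩⟩
  obtain ⟨X, hX⟩ := F8.AB.bundle_ex F8.phi !![2, 1; 1, 1] F8.AB.ZZ
    (by rw [F8.AM_phi]; decide) n
  exact ⟨X, by rw [abMat_eq]; exact hX⟩

/-- `Klein7 s n` is a bundle group with monodromy conjugate to `[[3, 2], [1, 1]] ^ n`. -/
theorem klein7_bundle (s : ℂ) (hs : s ^ 4 + s ^ 2 + 2 = 0) (n : ℕ) (hn : 0 < n) :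
    ∃ β : MulAut (FreeGroup (Fin 2)),
    (∃ X : GL (Fin 2) ℤ, X.val * abMat β = !![3, 2; 1, 1] ^ n * X.val) ∧
      Nonempty (BundleGroup β ≃* Klein7 s hs n) := by
  refine ⟨F8.D7.al7 ^ n, ?_, F8.D7.K7_equiv s hs n hn⟩
  obtain ⟨X, hX⟩ := F8.AB.bundle_ex F8.D7.al7 !![3, 2; 1, 1] F8.AB.ZZ
    (by rw [F8.D7.AM_al7]; decide) n
  exact ⟨X, by rw [abMat_eq]; exact hX⟩

/-- `Klein1 e f n` is a bundle group with monodromy conjugate to `[[5, 2], [2, 1]] ^ n`. -/
theorem klein1_bundle (e f : ℂ) (he : e ^ 4 + 1 = 0) (hf : f ^ 2 = 1 + e ^ 2) (n : ℕ)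
    (hn : 0 < n) : ∃ β : MulAut (FreeGroup (Fin 2)),
    (∃ X : GL (Fin 2) ℤ, X.val * abMat β = !![5, 2; 2, 1] ^ n * X.val) ∧
      Nonempty (BundleGroup β ≃* Klein1 e f he hf n) := by
  refine ⟨F8.D1.al1 ^ n, ?_, F8.D1.K1C_equiv e f he hf n hn⟩
  obtain ⟨X, hX⟩ := F8.AB.bundle_ex F8.D1.al1 !![5, 2; 2, 1] F8.AB.ZZ
    (by rw [F8.D1.AM_al1]; decide) n
  exact ⟨X, by rw [abMat_eq]; exact hX⟩

/-- the relator `y x⁻¹ y x y⁻¹ (x⁻¹ y x y⁻¹ x)⁻¹` -/
def relator (x y : FreeGroup (Fin 2)) : FreeGroup (Fin 2) :=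
  y * x⁻¹ * y * x * y⁻¹ * (x⁻¹ * y * x * y⁻¹ * x)⁻¹

/-- The abstract group of the figure-eight knot. -/
abbrev FigEightGroup : Type := PresentedGroup {relator (FreeGroup.of 0) (FreeGroup.of 1)}

/-- `Klein3 1` is the group of the figure-eight knot (Riley). -/
theorem klein3_one : Nonempty (Klein3 1 ≃* FigEightGroup) :=
  ⟨(MulEquiv.subgroupCongr F8.Kc_one).trans (F8.kE.symm.trans F8.prE.symm)⟩

/-- The group of the figure-eight knot. -/
theorem figureEight : ProfinitelyRigid FigEightGroup :=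
  F8.rigid_equiv klein3_one.some (F8.rigid_Kc 1 one_pos)

end Pool.Agent.Results.MP_305fdd_al.ArithmeticTorusBundles
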