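import Pool.Agent.Lib.MP_305fdd_al.F8.BG.Final

/-!
# MP_305fdd_al: the groups which contain `PSL(2, O_K)`, for `K = ℚ(√-1)`, `ℚ(√-2)`, `ℚ(√-7)`, `ℚ(√-11)`

`result`: let `K` be a quadratic field which contains a square root of `-1`, `-2`, `-7` or `-11`, and
`O_K` its ring of integers. Every group which has a normal subgroup of finite index isomorphic to
`PSL(2, O_K)` and no nontrivial finite normal subgroup is profinitely rigid in the absolute sense.
In particular this holds for the Bianchi group `PSL(2, O_K)` and for the extended Bianchi group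
`PGL(2, O_K) = GL(2, O_K) / center`.
-/

set_option autoImplicit false

namespace Pool.Agent.Results.MP_305fdd_al.BianchiGroups

open Pool.Agent.MP_305fdd_al NumberField

/-- Let `K` be a quadratic field with a square root `w` of `-1`, `-2`, `-7` or `-11`. Every group `G`
without nontrivial finite normal subgroups which has a normal subgroup of finite index isomorphic
to `PSL(2, O_K)` is profinitely rigid in the absolute sense; in particular `PSL(2, O_K)` and the
quotient of `GL(2, O_K)` by its center are. -/
theorem result (K : Type) [Field K] [NumberField K] (hK : Module.finrank ℚ K = 2)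
    (w : K) (hw : w ^ 2 = -1 ∨ w ^ 2 = -2 ∨ w ^ 2 = -7 ∨ w ^ 2 = -11) :
    (∀ (G : Type) [Group G] (N : Subgroup G), N.Normal → N.FiniteIndex →
      Nonempty (N ≃* Matrix.ProjectiveSpecialLinearGroup (Fin 2) (𝓞 K)) →
      (∀ F : Subgroup G, F.Normal → Finite F → F = ⊥) → ProfinitelyRigid G) ∧
    ProfinitelyRigid (Matrix.ProjectiveSpecialLinearGroup (Fin 2) (𝓞 K)) ∧
    ProfinitelyRigid (GL (Fin 2) (𝓞 K) ⧸ Subgroup.center (GL (Fin 2) (𝓞 K))) := by
  refine ⟨?_, F8.BG.psl_all K w hw hK, F8.BG.pgl_all K w hw hK⟩
  intro G _ N hN hi he hf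
  exact F8.BG.over_all K w hw hK G N hN hi he hf

end Pool.Agent.Results.MP_305fdd_al.BianchiGroups
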