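import Pool.Agent.Lib.MP_305fdd_al.F8.CG.MainS3

/-!
# MP_305fdd_al: congruence lattices over the Euclidean imaginary quadratic fields

`result`: let `K = ℚ(√-d)`, `d = 1, 2, 3, 7, 11`, and let `O_K` be its ring of integers. Every subgroup of
`PSL(2, ℂ)` which contains the image of a principal congruence subgroup `Γ(J)` of `SL(2, O_K)` as a
subgroup of finite index is profinitely rigid in the absolute sense.
-/

set_option autoImplicit false

namespace Pool.Agent.Results.MP_305fdd_al.CongruenceLattices

open Pool.Agent.MP_305fdd_al NumberField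
open scoped MatrixGroups

/-- Let `K` be a quadratic field with a square root `w` of `-1`, `-2`, `-3`, `-7` or `-11`, `i` a
homomorphism from its ring of integers to `ℂ` and `J` a nonzero ideal. Every subgroup of
`PSL(2, ℂ)` which contains the image of `Γ(J)` as a subgroup of finite index is profinitely rigid in
the absolute sense. -/
theorem result (K : Type) [Field K] [NumberField K] (hK : Module.finrank ℚ K = 2) (w : K)
    (hw : w ^ 2 = -1 ∨ w ^ 2 = -2 ∨ w ^ 2 = -3 ∨ w ^ 2 = -7 ∨ w ^ 2 = -11)
    (i : 𝓞 K →+* ℂ) (J : Ideal (𝓞 K)) (hJ : J ≠ ⊥) (Γ : Subgroup PSL(2, ℂ))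
    (hΓ : (Cong.G J).map (Cong.toPSL i) ≤ Γ)
    (hi : ((Cong.G J).map (Cong.toPSL i)).relIndex Γ ≠ 0) : ProfinitelyRigid Γ :=
  F8.CG.rigid_PSLC K hK w hw i J hJ Γ hΓ hi

end Pool.Agent.Results.MP_305fdd_al.CongruenceLattices
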