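import Pool.Agent.Lib.MP_305fdd_al.F8.ModelsM

/-!
# MP_305fdd_al: the cyclic covers of the figure-eight knot complement and the groups which contain them

The group of the figure-eight knot is a non-cocompact arithmetic lattice of `PSL(2,ℂ)` (Riley): it is
the subgroup generated by the classes of `a = [[1, 1], [0, 1]]` and `b = [[1, 0], [-ω, 1]]`, where
`ω = (-1 + i √3) / 2`. `Cover n` is the group of the `n`-fold cyclic cover of the complement of the
knot. Every group which has a normal subgroup of finite index isomorphic to some `Cover n` and no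
nontrivial finite normal subgroup is profinitely rigid in the absolute sense.

The theorems before and after `result` identify the groups `Cover n` and list the most important
special cases: the groups `Cover n`, the subgroups of `PSL(2,ℂ)` which contain some `Cover n` as a
normal subgroup of finite index, and the extensions of the free group of rank two by `ℤ` in which
`ℤ` acts on `ℤ ^ 2` through `± [[1, 1], [1, 0]] ^ j`.
-/

set_option autoImplicit false

namespace Pool.Agent.Lib.MP_305fdd_al.Old.FigureEightCovers

open Pool.Agent.MP_305fdd_al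

/-- `PSL(2,ℂ)` -/
abbrev PSL2C : Type := Matrix.ProjectiveSpecialLinearGroup (Fin 2) ℂ

/-- `ω = (-1 + i √3) / 2` -/
noncomputable def omega : ℂ := ⟨-1 / 2, Real.sqrt 3 / 2⟩

/-- the matrix `[[1, 1], [0, 1]]` -/
def matA : Matrix.SpecialLinearGroup (Fin 2) ℂ :=
  ⟨!![1, 1; 0, 1], by simp [Matrix.det_fin_two]⟩

/-- the matrix `[[1, 0], [-ω, 1]]` -/
noncomputable def matB : Matrix.SpecialLinearGroup (Fin 2) ℂ :=
  ⟨!![1, 0; -omega, 1], by simp [Matrix.det_fin_two]⟩

/-- the class of `[[1, 1], [0, 1]]` -/
noncomputable def a : PSL2C := QuotientGroup.mk' _ matA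

/-- the class of `[[1, 0], [-ω, 1]]` -/
noncomputable def b : PSL2C := QuotientGroup.mk' _ matB

/-- The group of the `n`-fold cyclic cover of the complement of the figure-eight knot. -/
noncomputable def Cover (n : ℕ) : Subgroup PSL2C :=
  Subgroup.closure {b * a⁻¹, a⁻¹ * b, a ^ n}

/-! ### Identification of the groups -/

/-- the relator `y x⁻¹ y x y⁻¹ (x⁻¹ y x y⁻¹ x)⁻¹` -/
def relator (x y : FreeGroup (Fin 2)) : FreeGroup (Fin 2) :=
  y * x⁻¹ * y * x * y⁻¹ * (x⁻¹ * y * x * y⁻¹ * x)⁻¹

/-- The abstract group of the figure-eight knot. -/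
abbrev FigEightGroup : Type := PresentedGroup {relator (FreeGroup.of 0) (FreeGroup.of 1)}

/-- `Cover 1` is generated by `a` and `b`. -/
theorem cover_one : Cover 1 = Subgroup.closure {a, b} := F8.Kc_one

/-- `Cover 1` is the group of the figure-eight knot. -/
theorem cover_one_equiv : Nonempty (Cover 1 ≃* FigEightGroup) :=
  ⟨(MulEquiv.subgroupCongr F8.Kc_one).trans (F8.kE.symm.trans F8.prE.symm)⟩

/-- `Cover n` is a normal subgroup of index `n` of `Cover 1`. -/
theorem cover_index (n : ℕ) : Cover n ≤ Cover 1 ∧ ((Cover n).subgroupOf (Cover 1)).Normal ∧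
    (Cover n).relIndex (Cover 1) = n :=
  ⟨F8.Kc_le n, F8.Kc_normal n, F8.Kc_relIndex n⟩

/-! ### The theorem -/

/-- Every group without nontrivial finite normal subgroups which has a normal subgroup of finite
index isomorphic to the group of a cyclic cover of the complement of the figure-eight knot is
profinitely rigid in the absolute sense. -/
theorem result (n : ℕ) (hn : 0 < n) (Γ : Type) [Group Γ] (N : Subgroup Γ) (hN : N.Normal)
    (hi : N.FiniteIndex) (e : N ≃* Cover n)
    (hΓ : ∀ K : Subgroup Γ, K.Normal → Finite K → K = ⊥) : ProfinitelyRigid Γ :=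
  F8.rigid_overK n hn Γ N hN hi ⟨e⟩ hΓ

/-! ### Special cases -/

/-- The cyclic covers themselves. -/
theorem covers (n : ℕ) (hn : 0 < n) : ProfinitelyRigid (Cover n) := F8.rigid_Kc n hn

/-- The group of the figure-eight knot. -/
theorem figureEight : ProfinitelyRigid FigEightGroup :=
  F8.rigid_equiv cover_one_equiv.some (covers 1 one_pos)

/-- All subgroups of `PSL(2,ℂ)` which contain some `Cover n` as a normal subgroup of finite index;
in particular all lattices which contain some `Cover n` as a normal subgroup. -/
theorem kleinian (n : ℕ) (hn : 0 < n) (Γ : Subgroup PSL2C) (hle : Cover n ≤ Γ)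
    (hN : ((Cover n).subgroupOf Γ).Normal) (hi : ((Cover n).subgroupOf Γ).FiniteIndex) :
    ProfinitelyRigid Γ :=
  F8.rigid_klein n hn Γ hle hN hi

/-- the exponent sum of the generator `i` -/
def expSum (i : Fin 2) : FreeGroup (Fin 2) →* Multiplicative ℤ :=
  FreeGroup.lift fun k => Multiplicative.ofAdd (if k = i then 1 else 0)

/-- the matrix through which an automorphism of the free group of rank two acts on `ℤ ^ 2` -/
def abMat (β : MulAut (FreeGroup (Fin 2))) : Matrix (Fin 2) (Fin 2) ℤ :=
  Matrix.of fun i j => Multiplicative.toAdd (expSum i (β (FreeGroup.of j)))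

theorem abMat_eq (β : MulAut (FreeGroup (Fin 2))) : abMat β = (F2X.AM β).val := by
  have h : ∀ (w : FreeGroup (Fin 2)) (i : Fin 2),
      Multiplicative.toAdd (expSum i w) = F2X.vec w i := by
    intro w i
    let g : FreeGroup (Fin 2) →* Multiplicative ℤ :=
      (AddMonoidHom.toMultiplicative (Pi.evalAddMonoidHom (fun _ : Fin 2 => ℤ) i)).comp F2X.abh
    have h1 : expSum i = g := by
      ext k
      show Multiplicative.toAdd (expSum i (FreeGroup.of k)) = F2X.vec (FreeGroup.of k) i
      rw [F2X.vec_of, Pi.single_apply]
      unfold expSum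
      rw [FreeGroup.lift_apply_of]
      show (if k = i then (1 : ℤ) else 0) = _
      simp only [eq_comm]
    exact congrArg Multiplicative.toAdd (DFunLike.congr_fun h1 w)
  ext i j
  exact h _ _

/-- The extensions of the free group of rank two by `ℤ` (the groups of the once-punctured torus
bundles) where the generator of `ℤ` acts on `ℤ ^ 2` through `± [[1, 1], [1, 0]] ^ j` with `j > 0`.
This contains the group of the figure-eight knot, of its sister, and the Gieseking group. -/
theorem mappingTorus (β : MulAut (FreeGroup (Fin 2))) (j : ℕ) (hj : 0 < j)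
    (h : abMat β = !![1, 1; 1, 0] ^ j ∨ abMat β = -!![1, 1; 1, 0] ^ j) :
    ProfinitelyRigid
      (FreeGroup (Fin 2) ⋊[zpowersHom (MulAut (FreeGroup (Fin 2))) β] Multiplicative ℤ) := by
  rw [abMat_eq] at h
  exact F8.rigid_torus β j hj h

end Pool.Agent.Lib.MP_305fdd_al.Old.FigureEightCovers
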