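import Pool.Agent.Lib.MP_305fdd_al.VF.Main
import Pool.Agent.Lib.MP_305fdd_al.VF.Psl
import Pool.Agent.Lib.MP_305fdd_al.Fr.Asm.Rigid

/-!
# MP_305fdd_al: free products of finitely many cyclic groups are profinitely rigid

Every finitely generated residually finite group with the same finite quotients as a free product
of finitely many cyclic groups (finite or infinite) is isomorphic to it. These groups are, up to
isomorphism, the finitely generated free groups, all non-cocompact lattices of `PSL(2, ℝ)`, and the
infinite dihedral and the cyclic groups. Two corollaries: all finitely generated subgroups of such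
groups, and all finitely generated subgroups of `PSL(2, ℤ)`, are profinitely rigid.
-/

set_option autoImplicit false

namespace Pool.Agent.Results.MP_305fdd_al.FreeProductsOfCyclicGroups

open Pool.Agent.MP_305fdd_al

/-- Every group isomorphic to a free product of finitely many cyclic groups (finite or infinite) is
profinitely rigid in the absolute sense. -/
theorem result (ι : Type) [Finite ι] (C : ι → Type) [∀ i, Group (C i)] [∀ i, IsCyclic (C i)]
    (Γ : Type) [Group Γ] (e : Monoid.CoprodI C ≃* Γ) : ProfinitelyRigid Γ :=
  Pool.Agent.VF.rigid_coprodI (fun r _ => Pool.Agent.FrAsm.rigid r) C (fun _ => inferInstance) e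

/-- Corollary: finitely generated subgroups of such groups are profinitely rigid. -/
theorem subgroups (ι : Type) [Finite ι] (C : ι → Type) [∀ i, Group (C i)] [∀ i, IsCyclic (C i)]
    (Γ : Type) [Group Γ] (e : Monoid.CoprodI C ≃* Γ) (H : Subgroup Γ) (hH : H.FG) :
    ProfinitelyRigid H :=
  Pool.Agent.VF.rigid_subgroup (fun r _ => Pool.Agent.FrAsm.rigid r) C (fun _ => inferInstance) e
    H hH

/-- Corollary: finitely generated subgroups of the modular group are profinitely rigid. -/
theorem modular_subgroups (H : Subgroup (Matrix.ProjectiveSpecialLinearGroup (Fin 2) ℤ))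
    (hH : H.FG) : ProfinitelyRigid H :=
  Pool.Agent.VF.rigid_psl (fun r _ => Pool.Agent.FrAsm.rigid r) H hH

end Pool.Agent.Results.MP_305fdd_al.FreeProductsOfCyclicGroups
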